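import Mathlib
import Pool.Agent.H41Z.TD.Proc

set_option autoImplicit false

/-! The weighted random independent set process on an ordered hypergraph. -/

namespace Pool.Agent.H41Z.HG

open Finset Pool.Agent.H41Z.TD
open scoped Classical

variable {V : Type} [Fintype V]

/-- `x` is critical for `v`, given weights `k` and coins `ω` -/
def critk (E : Finset (Finset V)) (t : V → ℕ) (M : ℕ) (cap : ℝ) (ω : V → Fin M) (k : V → ℝ)
    (x v : V) : Prop :=
  t x < t v ∧ ∃ e ∈ E, v ∈ e ∧ x ∈ e ∧
    ∀ y ∈ e, y ≠ v → y ≠ x → t y < t x ∧ (ω y).val < thr M cap (k y)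

omit [Fintype V] in
lemma critk_congr (E : Finset (Finset V)) (t : V → ℕ) (M : ℕ) (cap : ℝ) (ω ω' : V → Fin M)
    (k k' : V → ℝ) (x v : V) (h : ∀ y, t y < t x → ω y = ω' y ∧ k y = k' y) :
    critk E t M cap ω k x v ↔ critk E t M cap ω' k' x v := by
  unfold critk
  refine and_congr Iff.rfl (exists_congr (fun e => and_congr Iff.rfl (and_congr Iff.rfl
    (and_congr Iff.rfl (forall_congr' (fun y => forall_congr' (fun _ => forall_congr'
    (fun _ => forall_congr' (fun _ => ?_)))))))))
  constructor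
  · rintro ⟨h1, h2⟩
    exact ⟨h1, by rw [← (h y h1).1, ← (h y h1).2]; exact h2⟩
  · rintro ⟨h1, h2⟩
    exact ⟨h1, by rw [(h y h1).1, (h y h1).2]; exact h2⟩

lemma exists_weights (E : Finset (Finset V)) (t : V → ℕ) (M : ℕ) (w0 cap : ℝ) :
    ∃ W : (V → Fin M) → V → ℝ, ∀ ω v, W ω v = w0 * ∏ x ∈ univ.filter (fun x => t x < t v),
      if critk E t M cap ω (W ω) x v then gm M cap (W ω x) (ω x) else 1 := by
  let r : V → V → Prop := fun u v => t u < t v
  have hwf : WellFounded r := InvImage.wf t Nat.lt_wfRel.wf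
  refine ⟨fun ω => hwf.fix (fun v ih => w0 * ∏ x ∈ univ.filter (fun x => t x < t v),
    if critk E t M cap ω (fun u => if h : r u v then ih u h else 0) x v then
      gm M cap (if h : r x v then ih x h else 0) (ω x) else 1), ?_⟩
  intro ω v
  beta_reduce
  rw [WellFounded.fix_eq]
  congr 1
  refine Finset.prod_congr rfl (fun x hx => ?_)
  have hx' : r x v := (mem_filter.1 hx).2
  rw [dif_pos hx']
  refine if_congr (critk_congr E t M cap ω ω _ _ x v (fun y hy => ⟨rfl, ?_⟩)) rfl rfl
  exact dif_pos (lt_trans hy hx')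

/-- data of the process -/
structure HProc (V : Type) [Fintype V] where
  E : Finset (Finset V)
  t : V → ℕ
  M : ℕ
  w0 : ℝ
  cap : ℝ
  W : (V → Fin M) → V → ℝ
  ht : Function.Injective t
  hM : 0 < M
  hw0 : 0 ≤ w0
  hc0 : 0 ≤ cap
  hc1 : cap ≤ 1 / 2
  hW : ∀ ω v, W ω v = w0 * ∏ x ∈ univ.filter (fun x => t x < t v),
      if critk E t M cap ω (W ω) x v then gm M cap (W ω x) (ω x) else 1

namespace HProc

variable (X : HProc V)

instance : Nonempty (Fin X.M) := ⟨⟨0, X.hM⟩⟩

/-- `x` is critical for `v` -/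
def crit (ω : V → Fin X.M) (x v : V) : Prop := critk X.E X.t X.M X.cap ω (X.W ω) x v

/-- the multiplier that `x` passes to `v` -/
noncomputable def m (ω : V → Fin X.M) (x v : V) : ℝ :=
  if X.crit ω x v then gm X.M X.cap (X.W ω x) (ω x) else 1

/-- the weight of `v` at time `n` -/
noncomputable def Wt (ω : V → Fin X.M) (v : V) (n : ℕ) : ℝ :=
  X.w0 * ∏ x ∈ univ.filter (fun x => X.t x < n), X.m ω x v

/-- indicator that `v` fires -/
noncomputable def f (ω : V → Fin X.M) (v : V) : ℝ := fi X.M X.cap (X.W ω v) (ω v)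

/-- `v` fires -/
def fires (ω : V → Fin X.M) (v : V) : Prop := (ω v).val < thr X.M X.cap (X.W ω v)

lemma W_eq (ω : V → Fin X.M) (v : V) : X.W ω v = X.Wt ω v (X.t v) := by
  rw [X.hW]
  unfold Wt m crit
  congr

lemma m_nonneg (ω : V → Fin X.M) (x v : V) : 0 ≤ X.m ω x v := by
  unfold m
  split_ifs
  · exact gm_nonneg X.hM X.hc0 X.hc1 _ _
  · exact zero_le_one

lemma Wt_nonneg (ω : V → Fin X.M) (v : V) (n : ℕ) : 0 ≤ X.Wt ω v n :=
  mul_nonneg X.hw0 (Finset.prod_nonneg (fun x _ => X.m_nonneg ω x v))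

lemma W_nonneg (ω : V → Fin X.M) (v : V) : 0 ≤ X.W ω v := by
  rw [X.W_eq]; exact X.Wt_nonneg ω v _

lemma f_nonneg (ω : V → Fin X.M) (v : V) : 0 ≤ X.f ω v := fi_nonneg _ _

lemma f_eq (ω : V → Fin X.M) (v : V) : X.f ω v = if X.fires ω v then 1 else 0 := by
  unfold f fi fires
  congr

lemma W_update (ω : V → Fin X.M) (y : V) (c : Fin X.M) :
    ∀ v, X.t v ≤ X.t y → X.W (Function.update ω y c) v = X.W ω v := by
  have key : ∀ n : ℕ, ∀ v, X.t v < n → X.t v ≤ X.t y →
      X.W (Function.update ω y c) v = X.W ω v := by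
    intro n
    induction n with
    | zero => intro v hv; omega
    | succ n ih =>
      intro v hv hvy
      rw [X.hW _ v, X.hW ω v]
      congr 1
      refine Finset.prod_congr rfl (fun x hx => ?_)
      have hx' : X.t x < X.t v := (mem_filter.1 hx).2
      have hne : ∀ z, X.t z < X.t v → z ≠ y := by
        rintro z hz rfl; omega
      rw [ih x (by omega) (by omega), Function.update_of_ne (hne x hx')]
      refine if_congr (critk_congr _ _ _ _ _ _ _ _ x v (fun z hz => ⟨?_, ?_⟩)) rfl rfl
      · exact Function.update_of_ne (hne z (by omega)) _ _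
      · exact ih z (by omega) (by omega)
  intro v
  exact key _ v (Nat.lt_succ_self _)

lemma crit_update (ω : V → Fin X.M) (y : V) (c : Fin X.M) (x v : V) (h : X.t x ≤ X.t y) :
    X.crit (Function.update ω y c) x v ↔ X.crit ω x v := by
  refine critk_congr _ _ _ _ _ _ _ _ x v (fun z hz => ⟨?_, ?_⟩)
  · refine Function.update_of_ne ?_ _ _
    rintro rfl; omega
  · exact X.W_update ω y c z (by omega)

lemma m_update (ω : V → Fin X.M) (y : V) (c : Fin X.M) (x v : V) (h : X.t x < X.t y) :
    X.m (Function.update ω y c) x v = X.m ω x v := by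
  have hne : x ≠ y := by rintro rfl; omega
  unfold m
  rw [X.W_update ω y c x h.le, Function.update_of_ne hne]
  exact if_congr (X.crit_update ω y c x v h.le) rfl rfl

lemma m_update_self (ω : V → Fin X.M) (x : V) (c : Fin X.M) (v : V) :
    X.m (Function.update ω x c) x v = if X.crit ω x v then gm X.M X.cap (X.W ω x) c else 1 := by
  unfold m
  rw [X.W_update ω x c x le_rfl, Function.update_self]
  exact if_congr (X.crit_update ω x c x v le_rfl) rfl rfl

lemma Wt_update (ω : V → Fin X.M) (y : V) (c : Fin X.M) (v : V) (n : ℕ) (h : n ≤ X.t y) :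
    X.Wt (Function.update ω y c) v n = X.Wt ω v n := by
  unfold Wt
  congr 1
  refine Finset.prod_congr rfl (fun x hx => ?_)
  exact X.m_update ω y c x v (lt_of_lt_of_le (mem_filter.1 hx).2 h)

lemma f_update (ω : V → Fin X.M) (y : V) (c : Fin X.M) (v : V) (h : X.t v < X.t y) :
    X.f (Function.update ω y c) v = X.f ω v := by
  have hne : v ≠ y := by rintro rfl; omega
  unfold f
  rw [X.W_update ω y c v h.le, Function.update_of_ne hne]

lemma f_update_self (ω : V → Fin X.M) (x : V) (c : Fin X.M) :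
    X.f (Function.update ω x c) x = fi X.M X.cap (X.W ω x) c := by
  unfold f
  rw [X.W_update ω x c x le_rfl, Function.update_self]

lemma Wt_succ (ω : V → Fin X.M) (v x : V) :
    X.Wt ω v (X.t x + 1) = X.Wt ω v (X.t x) * X.m ω x v := by
  unfold Wt
  have : univ.filter (fun z => X.t z < X.t x + 1) =
      insert x (univ.filter (fun z => X.t z < X.t x)) := by
    ext z
    simp only [mem_filter, mem_univ, true_and, mem_insert]
    constructor
    · intro h
      by_cases hz : X.t z = X.t x
      · exact Or.inl (X.ht hz)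
      · right; omega
    · rintro (rfl | h) <;> omega
  rw [this, Finset.prod_insert (by simp)]
  ring

lemma Wt_succ_none (ω : V → Fin X.M) (v : V) (n : ℕ) (h : ∀ x, X.t x ≠ n) :
    X.Wt ω v (n + 1) = X.Wt ω v n := by
  unfold Wt
  congr 2
  ext z
  simp only [mem_filter, mem_univ, true_and]
  have := h z
  omega

lemma Wt_zero (ω : V → Fin X.M) (v : V) : X.Wt ω v 0 = X.w0 := by
  unfold Wt; simp

lemma mart (v : V) (n : ℕ) (Y : (V → Fin X.M) → ℝ)
    (hY : ∀ ω x c, n ≤ X.t x → Y (Function.update ω x c) = Y ω) :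
    ∀ k, Ex (fun ω => X.Wt ω v (n + k) * Y ω) = Ex (fun ω => X.Wt ω v n * Y ω) := by
  intro k
  induction k with
  | zero => rfl
  | succ k ih =>
    rw [← ih]
    by_cases h : ∃ x, X.t x = n + k
    · obtain ⟨x, hx⟩ := h
      rw [Ex_update x]
      refine Ex_congr (fun ω => ?_)
      have h1 : ∀ c, X.Wt (Function.update ω x c) v (n + (k + 1)) * Y (Function.update ω x c) =
          (X.Wt ω v (n + k) * Y ω) *
            (if X.crit ω x v then gm X.M X.cap (X.W ω x) c else 1) := by
        intro c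
        rw [← add_assoc, ← hx, X.Wt_succ, X.Wt_update ω x c v _ le_rfl, X.m_update_self,
          hY ω x c (by omega)]
        ring
      rw [Ex_congr h1, Ex_mul_left]
      split_ifs
      · rw [show (fun c => gm X.M X.cap (X.W ω x) c) = gm X.M X.cap (X.W ω x) from rfl,
          Ex_gm X.hM X.hc0 X.hc1, mul_one]
      · rw [Ex_const, mul_one]
    · push Not at h
      refine Ex_congr (fun ω => ?_)
      rw [← add_assoc, X.Wt_succ_none ω v _ h]

lemma Ex_W (v : V) : Ex (fun ω => X.W ω v) = X.w0 := by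
  have := X.mart v 0 (fun _ => 1) (fun _ _ _ _ => rfl) (X.t v)
  simp only [zero_add, mul_one, X.Wt_zero] at this
  rw [Ex_congr (fun ω => X.W_eq ω v), this, Ex_const]

/-- the product process along an edge -/
noncomputable def Z (e : Finset V) (n : ℕ) (ω : V → Fin X.M) : ℝ :=
  ∏ a ∈ e, if X.t a < n then X.f ω a else X.Wt ω a n

/-- no triangle -/
def TriFree (E : Finset (Finset V)) : Prop :=
  ¬ ∃ e ∈ E, ∃ f ∈ E, ∃ g ∈ E, ∃ u v w : V,
    u ∈ e ∧ u ∈ f ∧ v ∈ f ∧ v ∈ g ∧ w ∈ e ∧ w ∈ g ∧ u ∉ g ∧ v ∉ e ∧ w ∉ f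

lemma crit_unique (htri : TriFree X.E) {e : Finset V} (he : e ∈ X.E) (ω : V → Fin X.M)
    {x a b : V} (hx : x ∉ e) (ha : a ∈ e) (hb : b ∈ e) (h1 : X.crit ω x a) (h2 : X.crit ω x b) :
    a = b := by
  by_contra hab
  obtain ⟨t1, e1, he1, ha1, hx1, h1⟩ := h1
  obtain ⟨t2, e2, he2, hb2, hx2, h2⟩ := h2
  refine htri ⟨e, he, e1, he1, e2, he2, a, x, b, ha, ha1, hx1, hx2, hb, hb2, ?_, hx, ?_⟩
  · intro h
    have := (h2 a h hab (by rintro rfl; exact hx ha)).1
    omega
  · intro h
    have := (h1 b h (Ne.symm hab) (by rintro rfl; exact hx hb)).1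
    omega

lemma Z_step (htri : TriFree X.E) {e : Finset V} (he : e ∈ X.E) (n : ℕ) :
    Ex (X.Z e (n + 1)) ≤ Ex (X.Z e n) := by
  by_cases h : ∃ x, X.t x = n
  · obtain ⟨x, rfl⟩ := h
    rw [Ex_update x]
    refine Ex_mono (fun ω => ?_)
    -- the part that does not depend on the coin of `x`
    let A : ℝ := ∏ a ∈ e.erase x, if X.t a < X.t x then X.f ω a else X.Wt ω a (X.t x)
    have hA : 0 ≤ A := Finset.prod_nonneg (fun a _ => by
      split_ifs
      · exact X.f_nonneg ω a
      · exact X.Wt_nonneg ω a _)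
    let B : Fin X.M → ℝ := fun c =>
      ∏ a ∈ e.erase x, if X.crit ω x a then gm X.M X.cap (X.W ω x) c else 1
    have h1 : ∀ c, ∏ a ∈ e.erase x, (if X.t a < X.t x + 1 then X.f (Function.update ω x c) a
        else X.Wt (Function.update ω x c) a (X.t x + 1)) = A * B c := by
      intro c
      simp only [A, B]
      rw [← Finset.prod_mul_distrib]
      refine Finset.prod_congr rfl (fun a ha => ?_)
      have hne : X.t a ≠ X.t x := fun h => (Finset.ne_of_mem_erase ha) (X.ht h)
      by_cases hlt : X.t a < X.t x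
      · rw [if_pos (by omega), if_pos hlt, X.f_update ω x c a hlt, if_neg, mul_one]
        intro hc
        have := hc.1
        omega
      · rw [if_neg (by omega), if_neg hlt, X.Wt_succ, X.Wt_update ω x c a _ le_rfl,
          X.m_update_self]
    by_cases hx : x ∈ e
    · have h2 : ∀ c, X.Z e (X.t x + 1) (Function.update ω x c) ≤
          A * fi X.M X.cap (X.W ω x) c := by
        intro c
        unfold Z
        rw [← Finset.mul_prod_erase _ _ hx, h1, if_pos (Nat.lt_succ_self _), X.f_update_self]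
        unfold fi
        split_ifs with hf
        · rw [one_mul, mul_one]
          refine mul_le_of_le_one_right hA ?_
          refine Finset.prod_le_one (fun a _ => ?_) (fun a _ => ?_)
          · split_ifs
            · exact gm_nonneg X.hM X.hc0 X.hc1 _ _
            · exact zero_le_one
          · split_ifs
            · unfold gm; rw [if_pos hf]; exact zero_le_one
            · exact le_rfl
        · simp
      refine (Ex_mono h2).trans ?_
      rw [Ex_mul_left, Ex_fi X.hM X.hc0 X.hc1]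
      unfold Z
      rw [← Finset.mul_prod_erase _ _ hx, if_neg (lt_irrefl _), ← X.W_eq, mul_comm]
      exact mul_le_mul_of_nonneg_right (pr_le_self X.hM X.hc0 (X.W_nonneg ω x)) hA
    · have h0 : e.erase x = e := Finset.erase_eq_of_notMem hx
      have h2 : ∀ c, X.Z e (X.t x + 1) (Function.update ω x c) = A * B c := by
        intro c
        unfold Z
        rw [← h1 c, h0]
      have h3 : X.Z e (X.t x) ω = A := by
        unfold Z
        simp only [A, h0]
      rw [Ex_congr h2, Ex_mul_left, h3]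
      refine le_of_eq ?_
      by_cases hc : ∃ a ∈ e, X.crit ω x a
      · obtain ⟨a, ha, hca⟩ := hc
        have : B = gm X.M X.cap (X.W ω x) := by
          funext c
          simp only [B, h0]
          rw [Finset.prod_eq_single_of_mem a ha, if_pos hca]
          intro b hb hba
          rw [if_neg]
          intro hcb
          exact hba (X.crit_unique htri he ω hx hb ha hcb hca)
        rw [this, Ex_gm X.hM X.hc0 X.hc1, mul_one]
      · have : ∀ c, B c = 1 := by
          intro c
          simp only [B, h0]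
          refine Finset.prod_eq_one (fun a ha => ?_)
          rw [if_neg]
          intro hca
          exact hc ⟨a, ha, hca⟩
        rw [Ex_congr this, Ex_const, mul_one]
  · push Not at h
    refine le_of_eq (Ex_congr (fun ω => ?_))
    unfold Z
    refine Finset.prod_congr rfl (fun a _ => ?_)
    have := h a
    rw [X.Wt_succ_none ω a n h]
    exact if_congr (by omega) rfl rfl

lemma Ex_Z_le (htri : TriFree X.E) {e : Finset V} (he : e ∈ X.E) (n : ℕ) :
    Ex (X.Z e n) ≤ X.w0 ^ e.card := by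
  induction n with
  | zero =>
    have : ∀ ω, X.Z e 0 ω = X.w0 ^ e.card := by
      intro ω
      unfold Z
      simp [X.Wt_zero]
    rw [Ex_congr this, Ex_const]
  | succ n ih => exact (X.Z_step htri he n).trans ih

lemma Ex_edge (htri : TriFree X.E) {e : Finset V} (he : e ∈ X.E) {v x : V} (hv : v ∈ e)
    (hx : x ∈ e.erase v) (hxv : X.t x < X.t v) (hlast : ∀ y ∈ e, y ≠ v → y ≠ x → X.t y < X.t x) :
    Ex (fun ω => X.W ω v * (X.W ω x * ∏ y ∈ (e.erase v).erase x, X.f ω y)) ≤ X.w0 ^ e.card := by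
  have hlt : ∀ y ∈ (e.erase v).erase x, X.t y < X.t x := by
    intro y hy
    have h1 := Finset.mem_of_mem_erase hy
    exact hlast y (Finset.mem_of_mem_erase h1) (Finset.ne_of_mem_erase h1)
      (Finset.ne_of_mem_erase hy)
  have h1 := X.mart v (X.t x) (fun ω => X.W ω x * ∏ y ∈ (e.erase v).erase x, X.f ω y)
    (by
      intro ω z c hz
      rw [X.W_update ω z c x hz]
      congr 1
      exact Finset.prod_congr rfl (fun y hy => X.f_update ω z c y (lt_of_lt_of_le (hlt y hy) hz)))
    (X.t v - X.t x)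
  rw [show X.t x + (X.t v - X.t x) = X.t v by omega] at h1
  rw [Ex_congr (fun ω => by rw [X.W_eq ω v]), h1]
  refine le_trans (le_of_eq (Ex_congr (fun ω => ?_))) (X.Ex_Z_le htri he (X.t x))
  unfold Z
  rw [← Finset.mul_prod_erase _ _ hv, ← Finset.mul_prod_erase _ _ hx, if_neg (by omega),
    if_neg (lt_irrefl _), ← X.W_eq]
  congr 2
  exact Finset.prod_congr rfl (fun y hy => (if_pos (hlt y hy)).symm)

lemma min_ge (L : ℝ) (hL : 0 < L) (hcap : X.cap = X.w0 * Real.exp L) (ω : V → Fin X.M) (v : V) :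
    X.W ω v - (2 / L) * (X.W ω v * ∑ x, if X.crit ω x v then X.W ω x else 0) ≤
      min (X.W ω v) X.cap := by
  have hnn : ∀ x, 0 ≤ if X.crit ω x v then X.W ω x else 0 := by
    intro x
    split_ifs
    · exact X.W_nonneg ω x
    · exact le_rfl
  have hS : 0 ≤ ∑ x, if X.crit ω x v then X.W ω x else 0 := Finset.sum_nonneg (fun x _ => hnn x)
  have hv := X.W_nonneg ω v
  have h1 : X.W ω v ≤ X.w0 * Real.exp (2 * ∑ x, if X.crit ω x v then X.W ω x else 0) := by
    rw [X.W_eq ω v]
    unfold Wt
    refine mul_le_mul_of_nonneg_left ?_ X.hw0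
    calc ∏ x ∈ univ.filter (fun x => X.t x < X.t v), X.m ω x v
        ≤ ∏ x ∈ univ.filter (fun x => X.t x < X.t v),
            Real.exp (2 * if X.crit ω x v then X.W ω x else 0) := by
          refine Finset.prod_le_prod (fun x _ => X.m_nonneg ω x v) (fun x _ => ?_)
          unfold m
          split_ifs
          · exact gm_le_exp X.hM X.hc0 X.hc1 (X.W_nonneg ω x) _
          · simp
      _ = Real.exp (2 * ∑ x ∈ univ.filter (fun x => X.t x < X.t v),
            if X.crit ω x v then X.W ω x else 0) := by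
          rw [Finset.mul_sum, Real.exp_sum]
      _ ≤ _ := by
          refine Real.exp_le_exp.2 (mul_le_mul_of_nonneg_left ?_ (by norm_num))
          exact Finset.sum_le_sum_of_subset_of_nonneg (Finset.subset_univ _) (fun x _ _ => hnn x)
  generalize (∑ x, if X.crit ω x v then X.W ω x else 0) = S at *
  by_cases h : X.W ω v ≤ X.cap
  · rw [min_eq_left h]
    have : 0 ≤ (2 / L) * (X.W ω v * S) := by positivity
    linarith
  · push Not at h
    rw [min_eq_right h.le]
    have h2 : X.w0 * Real.exp L < X.w0 * Real.exp (2 * S) := by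
      rw [← hcap]; linarith
    have h3 : L < 2 * S := Real.exp_lt_exp.1 (lt_of_mul_lt_mul_left h2 X.hw0)
    have h4 : X.W ω v ≤ (2 / L) * (X.W ω v * S) := by
      have : (2 / L) * (X.W ω v * S) = ((2 * S) / L) * X.W ω v := by ring
      rw [this]
      refine le_mul_of_one_le_left hv ?_
      rw [le_div_iff₀ hL]; linarith
    linarith [X.hc0]

/-- the edges whose last vertex is `v` -/
noncomputable def lastE (v : V) : Finset (Finset V) :=
  X.E.filter (fun e => v ∈ e ∧ ∀ y ∈ e, X.t y ≤ X.t v)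

lemma crit_sum_le (ω : V → Fin X.M) (v : V) :
    (∑ x, if X.crit ω x v then X.W ω x else 0) ≤
      ∑ e ∈ X.lastE v, ∑ x ∈ (e.erase v).filter
        (fun x => X.t x < X.t v ∧ ∀ y ∈ e, y ≠ v → y ≠ x → X.t y < X.t x),
        X.W ω x * ∏ y ∈ (e.erase v).erase x, X.f ω y := by
  have hnn : ∀ (e : Finset V) x, 0 ≤ X.W ω x * ∏ y ∈ (e.erase v).erase x, X.f ω y :=
    fun e x => mul_nonneg (X.W_nonneg ω x) (Finset.prod_nonneg (fun y _ => X.f_nonneg ω y))
  rw [Finset.sum_comm' (t' := univ) (s' := fun x => (X.lastE v).filter (fun e => x ∈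
    (e.erase v).filter (fun x => X.t x < X.t v ∧ ∀ y ∈ e, y ≠ v → y ≠ x → X.t y < X.t x)))
    (by intro e x; simp only [mem_filter, mem_univ, and_true])]
  refine Finset.sum_le_sum (fun x _ => ?_)
  split_ifs with hc
  · obtain ⟨h1, e, he, hv, hx, h2⟩ := hc
    have hxv : x ≠ v := by rintro rfl; omega
    have hmem : e ∈ (X.lastE v).filter (fun e => x ∈ (e.erase v).filter
        (fun x => X.t x < X.t v ∧ ∀ y ∈ e, y ≠ v → y ≠ x → X.t y < X.t x)) := by
      simp only [lastE, mem_filter, mem_erase]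
      refine ⟨⟨he, hv, ?_⟩, ⟨hxv, hx⟩, h1, fun y hy a b => (h2 y hy a b).1⟩
      intro y hy
      by_cases a : y = v
      · rw [a]
      · by_cases b : y = x
        · rw [b]; exact h1.le
        · have := (h2 y hy a b).1
          omega
    refine le_trans ?_ (Finset.single_le_sum
      (f := fun e => X.W ω x * ∏ y ∈ (e.erase v).erase x, X.f ω y) (fun e _ => hnn e x) hmem)
    rw [Finset.prod_eq_one, mul_one]
    intro y hy
    have a := Finset.mem_of_mem_erase hy
    rw [X.f_eq, if_pos]
    exact (h2 y (Finset.mem_of_mem_erase a) (Finset.ne_of_mem_erase a)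
      (Finset.ne_of_mem_erase hy)).2
  · exact Finset.sum_nonneg (fun e _ => hnn e x)

lemma Ex_f (y : V) : Ex (fun ω => X.f ω y) = Ex (fun ω => pr X.M X.cap (X.W ω y)) := by
  rw [Ex_update y]
  refine Ex_congr (fun ω => ?_)
  simp only [X.f_update_self]
  exact Ex_fi X.hM X.hc0 X.hc1 _

lemma Ex_f_ge (htri : TriFree X.E) (r d : ℕ) (hr : ∀ e ∈ X.E, e.card = r)
    (L : ℝ) (hL : 0 < L) (hcap : X.cap = X.w0 * Real.exp L) (v : V)
    (hd : (X.lastE v).card ≤ d) :
    X.w0 - (2 / L) * (d * (r * X.w0 ^ r)) - 1 / X.M ≤ Ex (fun ω => X.f ω v) := by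
  rw [X.Ex_f]
  have h1 : Ex (fun ω => X.W ω v - (2 / L) * (∑ e ∈ X.lastE v, ∑ x ∈ (e.erase v).filter
        (fun x => X.t x < X.t v ∧ ∀ y ∈ e, y ≠ v → y ≠ x → X.t y < X.t x),
        X.W ω v * (X.W ω x * ∏ y ∈ (e.erase v).erase x, X.f ω y)) - 1 / X.M) ≤
      Ex (fun ω => pr X.M X.cap (X.W ω v)) := by
    refine Ex_mono (fun ω => ?_)
    have a1 := X.min_ge L hL hcap ω v
    have a2 := min_sub_le_pr (cap := X.cap) X.hM (X.W ω v)
    have a3 := mul_le_mul_of_nonneg_left (X.crit_sum_le ω v) (X.W_nonneg ω v)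
    rw [Finset.mul_sum (X.lastE v)] at a3
    simp only [Finset.mul_sum ((Finset.erase _ v).filter _)] at a3
    have a4 := mul_le_mul_of_nonneg_left a3 (show 0 ≤ 2 / L by positivity)
    linarith
  refine le_trans ?_ h1
  rw [Ex_sub, Ex_sub, Ex_const, Ex_mul_left, Ex_sum, X.Ex_W]
  have hw : 0 ≤ X.w0 ^ r := pow_nonneg X.hw0 r
  have h2 : ∑ e ∈ X.lastE v, Ex (fun ω => ∑ x ∈ (e.erase v).filter
        (fun x => X.t x < X.t v ∧ ∀ y ∈ e, y ≠ v → y ≠ x → X.t y < X.t x),
        X.W ω v * (X.W ω x * ∏ y ∈ (e.erase v).erase x, X.f ω y)) ≤ d * (r * X.w0 ^ r) := by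
    calc _ ≤ ∑ _e ∈ X.lastE v, (r * X.w0 ^ r) := by
          refine Finset.sum_le_sum (fun e he => ?_)
          have he' := mem_filter.1 he
          rw [Ex_sum]
          calc _ ≤ ∑ _x ∈ (e.erase v).filter
                  (fun x => X.t x < X.t v ∧ ∀ y ∈ e, y ≠ v → y ≠ x → X.t y < X.t x),
                  X.w0 ^ r := by
                refine Finset.sum_le_sum (fun x hx => ?_)
                have hx' := mem_filter.1 hx
                rw [← hr e he'.1]
                exact X.Ex_edge htri he'.1 he'.2.1 hx'.1 hx'.2.1 hx'.2.2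
            _ ≤ r * X.w0 ^ r := by
                rw [Finset.sum_const, nsmul_eq_mul]
                refine mul_le_mul_of_nonneg_right ?_ hw
                rw [← hr e he'.1]
                exact_mod_cast Finset.card_le_card
                  ((Finset.filter_subset _ _).trans (Finset.erase_subset _ _))
      _ ≤ d * (r * X.w0 ^ r) := by
          rw [Finset.sum_const, nsmul_eq_mul]
          refine mul_le_mul_of_nonneg_right (by exact_mod_cast hd) (by positivity)
  have h3 := mul_le_mul_of_nonneg_left h2 (show 0 ≤ 2 / L by positivity)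
  linarith

lemma indep (ω : V → Fin X.M) {e : Finset V} (he : e ∈ X.E) (h2 : 2 ≤ e.card) :
    ¬ ∀ y ∈ e, X.fires ω y := by
  intro hall
  obtain ⟨v, hv, hvmax⟩ := Finset.exists_max_image e X.t (by rw [← Finset.card_pos]; omega)
  obtain ⟨x, hx, hxmax⟩ := Finset.exists_max_image (e.erase v) X.t
    (by rw [← Finset.card_pos, Finset.card_erase_of_mem hv]; omega)
  have hxe := Finset.mem_of_mem_erase hx
  have hxv : X.t x < X.t v :=
    lt_of_le_of_ne (hvmax x hxe) (fun h => Finset.ne_of_mem_erase hx (X.ht h))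
  have hc : X.crit ω x v := by
    refine ⟨hxv, e, he, hv, hxe, fun y hy a b => ⟨?_, hall y hy⟩⟩
    exact lt_of_le_of_ne (hxmax y (Finset.mem_erase.2 ⟨a, hy⟩)) (fun h => b (X.ht h))
  have h0 : X.W ω v = 0 := by
    rw [X.W_eq]
    unfold Wt
    rw [Finset.prod_eq_zero (i := x) (by simp [hxv]), mul_zero]
    unfold m gm
    rw [if_pos hc]
    exact if_pos (hall x hxe)
  have := hall v hv
  unfold fires at this
  rw [h0, thr_zero X.hc0] at this
  omega

end HProc

end Pool.Agent.H41Z.HG
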