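import Mathlib
import Pool.Agent.H41Z.HG.Proc

set_option autoImplicit false

/-! Fractional colouring of degenerate triangle-free uniform hypergraphs. -/

namespace Pool.Agent.H41Z.HG

open Finset Pool.Agent.H41Z.TD
open scoped Classical

variable {V : Type} [Fintype V]

lemma exists_order (E : Finset (Finset V)) (d : ℕ)
    (hE : ∀ S : Finset V, S.Nonempty → ∃ v ∈ S, (E.filter (fun e => v ∈ e ∧ e ⊆ S)).card ≤ d) :
    ∃ t : V → ℕ, Function.Injective t ∧
      ∀ v, (E.filter (fun e => v ∈ e ∧ ∀ y ∈ e, t y ≤ t v)).card ≤ d := by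
  have key : ∀ n : ℕ, ∀ S : Finset V, S.card = n → ∃ t : V → ℕ, (∀ x ∈ S, t x < n) ∧
      (∀ x ∈ S, ∀ y ∈ S, t x = t y → x = y) ∧
      ∀ v ∈ S, (E.filter (fun e => v ∈ e ∧ e ⊆ S ∧ ∀ y ∈ e, t y ≤ t v)).card ≤ d := by
    intro n
    induction n with
    | zero =>
      intro S hS
      rw [Finset.card_eq_zero] at hS
      subst hS
      exact ⟨fun _ => 0, by simp, by simp, by simp⟩
    | succ n ih =>
      intro S hS
      obtain ⟨w, hw, hwd⟩ := hE S (by rw [← Finset.card_pos]; omega)
      obtain ⟨t, h1, h2, h3⟩ := ih (S.erase w) (by rw [Finset.card_erase_of_mem hw]; omega)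
      have hlt : ∀ x ∈ S, x ≠ w → Function.update t w n x < n := by
        intro x hx hxw
        rw [Function.update_of_ne hxw]
        exact h1 x (by simp [hx, hxw])
      refine ⟨Function.update t w n, ?_, ?_, ?_⟩
      · intro x hx
        by_cases hxw : x = w
        · subst hxw; simp
        · have := hlt x hx hxw; omega
      · intro x hx y hy hxy
        by_cases hxw : x = w <;> by_cases hyw : y = w
        · rw [hxw, hyw]
        · have := hlt y hy hyw
          rw [← hxy, hxw, Function.update_self] at this; omega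
        · have := hlt x hx hxw
          rw [hxy, hyw, Function.update_self] at this; omega
        · rw [Function.update_of_ne hxw, Function.update_of_ne hyw] at hxy
          exact h2 x (by simp [hx, hxw]) y (by simp [hy, hyw]) hxy
      · intro v hv
        by_cases hvw : v = w
        · subst hvw
          refine le_trans (Finset.card_le_card ?_) hwd
          intro e he
          rw [mem_filter] at he ⊢
          exact ⟨he.1, he.2.1, he.2.2.1⟩
        · refine le_trans (Finset.card_le_card ?_) (h3 v (by simp [hv, hvw]))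
          intro e he
          rw [mem_filter] at he ⊢
          obtain ⟨a1, a2, a3, a4⟩ := he
          have hwe : ∀ y ∈ e, y ≠ w := by
            rintro y hy rfl
            have b1 := a4 y hy
            have b2 := hlt v hv hvw
            rw [Function.update_self] at b1
            omega
          refine ⟨a1, a2, fun y hy => by simp [a3 hy, hwe y hy], fun y hy => ?_⟩
          have := a4 y hy
          rwa [Function.update_of_ne (hwe y hy), Function.update_of_ne hvw] at this
  obtain ⟨t, -, h2, h3⟩ := key _ univ rfl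
  refine ⟨t, fun x y h => h2 x (mem_univ _) y (mem_univ _) h, fun v => ?_⟩
  simpa using h3 v (mem_univ v)

theorem frac (E : Finset (Finset V)) (r d : ℕ) (hr2 : 2 ≤ r) (hr : ∀ e ∈ E, e.card = r)
    (hE : ∀ S : Finset V, S.Nonempty → ∃ v ∈ S, (E.filter (fun e => v ∈ e ∧ e ⊆ S)).card ≤ d)
    (htri : HProc.TriFree E) (w0 L : ℝ) (hw0 : 0 < w0) (hL : 0 < L)
    (hcap : w0 * Real.exp L ≤ 1 / 2) (hLd : 8 * (d * (r * w0 ^ (r - 1))) ≤ L) :
    ∃ wt : Finset V → ℝ, (∀ S, 0 ≤ wt S) ∧ (∀ S, wt S ≠ 0 → ∀ e ∈ E, ¬ e ⊆ S) ∧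
      (∀ v : V, 1 ≤ ∑ S : Finset V, (if v ∈ S then wt S else 0)) ∧
      (∑ S : Finset V, wt S) ≤ 2 / w0 := by
  obtain ⟨t, ht, htd⟩ := exists_order E d hE
  obtain ⟨M, hM⟩ := exists_nat_gt (4 / w0)
  have hMR : (0 : ℝ) < M := lt_trans (by positivity) hM
  have hMpos : 0 < M := by exact_mod_cast hMR
  obtain ⟨W, hW⟩ := exists_weights E t M w0 (w0 * Real.exp L)
  let X : HProc V :=
    { E := E, t := t, M := M, w0 := w0, cap := w0 * Real.exp L, W := W, ht := ht, hM := hMpos
      hw0 := hw0.le, hc0 := by positivity, hc1 := hcap, hW := hW }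
  have hne : Nonempty (V → Fin X.M) := ⟨fun _ => ⟨0, hMpos⟩⟩
  let I : (V → Fin X.M) → Finset V := fun ω => univ.filter (X.fires ω)
  have hind : ∀ (S : Finset V) ω, (0 : ℝ) ≤ if S = I ω then 1 else 0 := by
    intro S ω; split_ifs <;> norm_num
  refine ⟨fun S => (2 / w0) * Ex (fun ω => if S = I ω then (1 : ℝ) else 0), ?_, ?_, ?_, ?_⟩
  · intro S
    exact mul_nonneg (by positivity) (Ex_nonneg (hind S))
  · intro S hS e he heS
    have : ∃ ω, S = I ω := by
      by_contra hcon
      push Not at hcon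
      apply hS
      beta_reduce
      rw [Ex_congr (g := fun _ => 0) (fun ω => if_neg (hcon ω)), Ex_const, mul_zero]
    obtain ⟨ω, rfl⟩ := this
    refine X.indep ω he (by rw [hr e he]; exact hr2) (fun y hy => ?_)
    exact (mem_filter.1 (heS hy)).2
  · intro v
    have h1 : ∑ S : Finset V, (if v ∈ S then
        (2 / w0) * Ex (fun ω => if S = I ω then (1 : ℝ) else 0) else 0) =
        (2 / w0) * Ex (fun ω => X.f ω v) := by
      have h2 : ∀ ω, X.f ω v = ∑ S : Finset V, if v ∈ S then (if S = I ω then (1 : ℝ) else 0)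
          else 0 := by
        intro ω
        rw [Finset.sum_eq_single (I ω) (fun S _ hS => by simp [hS]) (by simp), X.f_eq]
        simp [I]
      rw [Ex_congr h2, Ex_sum, Finset.mul_sum]
      refine Finset.sum_congr rfl (fun S _ => ?_)
      split_ifs
      · rfl
      · rw [Ex_const, mul_zero]
    rw [h1]
    have h3 := X.Ex_f_ge htri r d hr L hL rfl v (htd v)
    have h4 : (2 / L) * (d * (r * w0 ^ r)) ≤ w0 / 4 := by
      have a1 : w0 ^ r = w0 ^ (r - 1) * w0 := by
        rw [← pow_succ]; congr 1; omega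
      rw [a1, div_mul_eq_mul_div, div_le_iff₀ hL]
      nlinarith
    have h5 : 1 / (M : ℝ) ≤ w0 / 4 := by
      rw [div_lt_iff₀ hw0] at hM
      rw [div_le_div_iff₀ hMR (by norm_num)]
      linarith
    have h6 : w0 / 2 ≤ Ex (fun ω => X.f ω v) := by
      change w0 - (2 / L) * (d * (r * w0 ^ r)) - 1 / (M : ℝ) ≤ _ at h3
      linarith
    calc (1 : ℝ) = (2 / w0) * (w0 / 2) := by field_simp
      _ ≤ _ := mul_le_mul_of_nonneg_left h6 (by positivity)
  · rw [← Finset.mul_sum, ← Ex_sum]
    have : ∀ ω, ∑ S : Finset V, (if S = I ω then (1 : ℝ) else 0) = 1 := by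
      intro ω; simp
    rw [Ex_congr this, Ex_const, mul_one]

lemma params (r : ℕ) (hr : 3 ≤ r) (d : ℕ) (hd : 2 ≤ d) :
    ∃ w0 L : ℝ, 0 < w0 ∧ 0 < L ∧ w0 * Real.exp L ≤ 1 / 2 ∧
      8 * (d * (r * w0 ^ (r - 1))) ≤ L ∧
      2 / w0 ≤ (32 * r * r) * ((d : ℝ) / Real.log (d : ℝ)) ^ (1 / ((r : ℝ) - 1)) := by
  obtain ⟨k, rfl⟩ : ∃ k, r = k + 1 := ⟨r - 1, by omega⟩
  have hk : 2 ≤ k := by omega
  have hkR : (2 : ℝ) ≤ k := by exact_mod_cast hk
  have hdR : (2 : ℝ) ≤ d := by exact_mod_cast hd
  have hx : 0 < Real.log d := Real.log_pos (by linarith)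
  have hdx : (d : ℝ) = Real.exp (Real.log d) := (Real.exp_log (by linarith)).symm
  have hy0 : 0 < ((d : ℝ) / Real.log d) ^ (1 / (((k + 1 : ℕ) : ℝ) - 1)) := by positivity
  have hyk : (((d : ℝ) / Real.log d) ^ (1 / (((k + 1 : ℕ) : ℝ) - 1))) ^ k = d / Real.log d := by
    rw [← Real.rpow_natCast, ← Real.rpow_mul (by positivity)]
    have : 1 / (((k + 1 : ℕ) : ℝ) - 1) * k = 1 := by
      push_cast
      rw [add_sub_cancel_right]
      field_simp
    rw [this, Real.rpow_one]
  generalize ((d : ℝ) / Real.log d) ^ (1 / (((k + 1 : ℕ) : ℝ) - 1)) = y at *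
  generalize Real.log d = x at *
  set R : ℝ := ((k + 1 : ℕ) : ℝ) with hR
  have hRk : R = k + 1 := by rw [hR]; push_cast; ring
  have hR3 : 3 ≤ R := by linarith
  set β : ℝ := 1 / (16 * R * R) with hβ
  have hβ0 : 0 < β := by positivity
  have hβ1 : β ≤ 1 / 4 := by
    rw [hβ]
    exact one_div_le_one_div_of_le (by norm_num) (by nlinarith)
  have hβk : β ^ k ≤ β := pow_le_of_le_one hβ0.le (by linarith) (by omega)
  refine ⟨β / y, x / (2 * k), by positivity, by positivity, ?_, ?_, ?_⟩
  · have h1 : 2 * β * Real.exp (x / (2 * k)) ≤ y := by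
      refine le_of_pow_le_pow_left₀ (show k ≠ 0 by omega) hy0.le ?_
      rw [hyk, mul_pow, ← Real.exp_nat_mul, le_div_iff₀ hx]
      have a1 : (k : ℝ) * (x / (2 * k)) = x / 2 := by field_simp
      have a2 : (2 * β) ^ k ≤ 2 * β := pow_le_of_le_one (by positivity) (by linarith) (by omega)
      have a3 := Real.add_one_le_exp (x / 2)
      have a4 : Real.exp x = Real.exp (x / 2) * Real.exp (x / 2) := by
        rw [← Real.exp_add]; congr 1; ring
      have a5 : 0 < Real.exp (x / 2) := Real.exp_pos _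
      rw [a1, hdx, a4]
      have a6 : (2 * β) ^ k * x ≤ Real.exp (x / 2) := by
        have : (2 * β) ^ k * x ≤ (1 / 2) * x := by
          refine mul_le_mul_of_nonneg_right ?_ hx.le
          linarith
        linarith
      calc (2 * β) ^ k * Real.exp (x / 2) * x = ((2 * β) ^ k * x) * Real.exp (x / 2) := by ring
        _ ≤ _ := mul_le_mul_of_nonneg_right a6 a5.le
    rw [div_mul_eq_mul_div, div_le_iff₀ hy0]
    linarith
  · rw [Nat.add_sub_cancel, div_pow, hyk]
    have a1 : 8 * ((d : ℝ) * (R * (β ^ k / (d / x)))) = 8 * R * x * β ^ k := by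
      field_simp
    rw [a1]
    have a2 : 8 * R * x * β ^ k ≤ 8 * R * x * β := by gcongr
    have a3 : 8 * R * x * β = x / (2 * R) := by rw [hβ]; field_simp; ring
    have a4 : x / (2 * R) ≤ x / (2 * k) := by
      gcongr; linarith
    linarith
  · rw [hβ]
    apply le_of_eq
    field_simp
    ring

end Pool.Agent.H41Z.HG
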